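import Mathlib

set_option autoImplicit false

/-! # First-Fit on chordal graphs: a lower bound uniform in the clique number -/

namespace Pool.Agent.Results.MP_4aa424_co.UniformLowerBound

open Finset

/-- every cycle `c 0, c 1, …, c (ℓ - 1)` of length `ℓ ≥ 4` of `G` has a chord, i.e. an edge of `G`
joining two vertices of the cycle that are not consecutive on it -/
def IsChordal {V : Type} (G : SimpleGraph V) : Prop :=
  ∀ ℓ : ℕ, 4 ≤ ℓ → ∀ c : ZMod ℓ → V, Function.Injective c → (∀ i, G.Adj (c i) (c (i + 1))) →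
    ∃ i j, j ≠ i ∧ j ≠ i + 1 ∧ i ≠ j + 1 ∧ G.Adj (c i) (c j)

/-- `f` is the First-Fit colouring of `G` for the ordering `σ 0, σ 1, …` of the vertices: the
colour `f i` of the vertex `σ i` is the least positive integer not used on a neighbour `σ j` of
`σ i` with `j < i` -/
def IsFirstFit {V : Type} [Fintype V] (G : SimpleGraph V) (σ : Fin (Fintype.card V) ≃ V)
    (f : Fin (Fintype.card V) → ℕ) : Prop :=
  ∀ i, IsLeast {c : ℕ | 1 ≤ c ∧ ∀ j, j < i → G.Adj (σ j) (σ i) → f j ≠ c} (f i)

/-- the First-Fit chromatic number: the largest number of colours First-Fit uses on `G`, over all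
orderings of the vertices -/
noncomputable def firstFitNumber {V : Type} [Fintype V] (G : SimpleGraph V) : ℕ :=
  sSup {t : ℕ | ∃ (σ : Fin (Fintype.card V) ≃ V) (f : Fin (Fintype.card V) → ℕ),
    IsFirstFit G σ f ∧ t = (univ.image f).card}

/-! ### General lemmas -/

theorem chordal_of_rank {V : Type} (G : SimpleGraph V) (r : V → ℕ) (hr : Function.Injective r)
    (h : ∀ v x y, G.Adj v x → G.Adj v y → r x < r v → r y < r v → x ≠ y → G.Adj x y) :
    IsChordal G := by
  intro ℓ hℓ c hc hadj
  haveI : NeZero ℓ := ⟨by omega⟩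
  have h1 : (1 : ZMod ℓ) ≠ 0 := by
    intro h0
    have : ((1 : ℕ) : ZMod ℓ) = 0 := by exact_mod_cast h0
    rw [ZMod.natCast_eq_zero_iff] at this
    have := Nat.le_of_dvd (by norm_num) this
    omega
  have h2 : (2 : ZMod ℓ) ≠ 0 := by
    intro h0
    have : ((2 : ℕ) : ZMod ℓ) = 0 := by exact_mod_cast h0
    rw [ZMod.natCast_eq_zero_iff] at this
    have := Nat.le_of_dvd (by norm_num) this
    omega
  have h3 : (3 : ZMod ℓ) ≠ 0 := by
    intro h0
    have : ((3 : ℕ) : ZMod ℓ) = 0 := by exact_mod_cast h0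
    rw [ZMod.natCast_eq_zero_iff] at this
    have := Nat.le_of_dvd (by norm_num) this
    omega
  obtain ⟨m, -, hm⟩ := Finset.exists_max_image (univ : Finset (ZMod ℓ)) (fun i => r (c i))
    ⟨0, mem_univ _⟩
  have hlt : ∀ i, i ≠ m → r (c i) < r (c m) := fun i hi =>
    lt_of_le_of_ne (hm i (mem_univ _)) (fun he => hi (hc (hr he)))
  have ha1 : m - 1 ≠ m := fun he => h1 (by linear_combination -he)
  have ha2 : m + 1 ≠ m := fun he => h1 (by linear_combination he)
  have hA : G.Adj (c m) (c (m - 1)) := by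
    have := hadj (m - 1)
    rw [sub_add_cancel] at this
    exact this.symm
  refine ⟨m - 1, m + 1, ?_, ?_, ?_, ?_⟩
  · intro he; exact h2 (by linear_combination he)
  · intro he; exact h1 (by linear_combination he)
  · intro he; exact h3 (by linear_combination -he)
  · refine h (c m) _ _ hA (hadj m) (hlt _ ha1) (hlt _ ha2) ?_
    intro he
    have := hc he
    exact h2 (by linear_combination -this)

/-- a wall gives a lower bound for the First-Fit chromatic number -/
theorem le_firstFitNumber {V : Type} [Fintype V] (G : SimpleGraph V) (L : V → ℕ)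
    (hpos : ∀ x, 1 ≤ L x) (hprop : ∀ x y, G.Adj x y → L x ≠ L y)
    (hwall : ∀ x t, 1 ≤ t → t < L x → ∃ y, G.Adj x y ∧ L y = t) (h : ℕ)
    (hh : ∃ x, L x = h) : h ≤ firstFitNumber G := by
  classical
  -- an ordering with nondecreasing levels
  let e : Fin (Fintype.card V) ≃ V := (Fintype.equivFin V).symm
  let τ := Tuple.sort (L ∘ e)
  let σ : Fin (Fintype.card V) ≃ V := τ.trans e
  have hmono : Monotone (fun i => L (σ i)) := Tuple.monotone_sort (L ∘ e)
  have hFF : IsFirstFit G σ (fun i => L (σ i)) := by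
    intro i
    refine ⟨⟨hpos _, fun j _ hadj => hprop _ _ hadj⟩, ?_⟩
    rintro c ⟨hc1, hc2⟩
    by_contra hlt
    push Not at hlt
    obtain ⟨y, hy, hLy⟩ := hwall (σ i) c hc1 hlt
    have hj : σ (σ.symm y) = y := σ.apply_symm_apply y
    refine hc2 (σ.symm y) ?_ ?_ ?_
    · by_contra hge
      push Not at hge
      have := hmono hge
      simp only [hj, hLy] at this
      omega
    · rw [hj]; exact hy.symm
    · show L (σ (σ.symm y)) = c
      rw [hj]; exact hLy
  have hbdd : BddAbove {t : ℕ | ∃ (σ : Fin (Fintype.card V) ≃ V) (f : Fin (Fintype.card V) → ℕ),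
      IsFirstFit G σ f ∧ t = (univ.image f).card} := by
    refine ⟨Fintype.card V, ?_⟩
    rintro t ⟨σ, f, -, rfl⟩
    exact card_image_le.trans (by simp)
  refine le_trans ?_ (le_csSup hbdd ⟨σ, _, hFF, rfl⟩)
  -- all the colours `1, …, h` are used
  obtain ⟨x, hx⟩ := hh
  have hsub : Finset.Icc 1 h ⊆ univ.image (fun i => L (σ i)) := by
    intro t ht
    rw [Finset.mem_Icc] at ht
    rcases Nat.lt_or_ge t h with hlt | hge
    · obtain ⟨y, -, hy⟩ := hwall x t ht.1 (by omega)
      exact mem_image.2 ⟨σ.symm y, mem_univ _, by simp [hy]⟩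
    · have : t = h := by omega
      exact mem_image.2 ⟨σ.symm x, mem_univ _, by simp [hx, this]⟩
  have := card_le_card hsub
  simpa using this

/-! ### The graph: binomial trees with cliques substituted for the vertices -/

/-- the child relation of the binomial tree on the subsets of `{0, …, q - 1}` -/
def Ch {q : ℕ} (A B : Finset (Fin q)) : Prop := ∃ j, (∀ a ∈ A, j < a) ∧ B = insert j A

theorem Ch.card {q : ℕ} {A B : Finset (Fin q)} (h : Ch A B) : B.card = A.card + 1 := by
  obtain ⟨j, hj, rfl⟩ := h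
  exact card_insert_of_notMem (fun hm => lt_irrefl _ (hj j hm))

theorem Ch.unique {q : ℕ} {A A' B : Finset (Fin q)} (h : Ch A B) (h' : Ch A' B) : A = A' := by
  obtain ⟨j, hj, rfl⟩ := h
  obtain ⟨i, hi, he⟩ := h'
  have hjA : j ∉ A := fun hm => lt_irrefl _ (hj j hm)
  have hiA : i ∉ A' := fun hm => lt_irrefl _ (hi i hm)
  have hij : i = j := by
    by_contra hne
    have h1 : j ∈ insert i A' := he ▸ mem_insert_self _ _
    have h2 : i ∈ insert j A := he.symm ▸ mem_insert_self _ _
    have h1' := (mem_insert.1 h1).resolve_left (fun h => hne h.symm)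
    have h2' := (mem_insert.1 h2).resolve_left hne
    exact lt_asymm (hi j h1') (hj i h2')
  subst hij
  have := congrArg (fun S => S.erase i) he
  simpa [erase_insert hjA, erase_insert hiA] using this

/-- the number of children -/
def dg {q : ℕ} (A : Finset (Fin q)) : ℕ := (univ.filter (fun j : Fin q => ∀ a ∈ A, j < a)).card

theorem dg_insert {q : ℕ} (A : Finset (Fin q)) (j : Fin q) (hj : ∀ a ∈ A, j < a) :
    dg (insert j A) = j := by
  have : (univ.filter (fun i : Fin q => ∀ a ∈ insert j A, i < a)) = Finset.Iio j := by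
    ext i
    simp only [mem_filter, mem_univ, true_and, Finset.mem_Iio]
    constructor
    · intro h; exact h j (mem_insert_self _ _)
    · intro h a ha
      rcases mem_insert.1 ha with rfl | ha
      · exact h
      · exact h.trans (hj a ha)
  rw [dg, this]
  simp

theorem lt_dg_iff {q : ℕ} (A : Finset (Fin q)) (j : Fin q) : (j : ℕ) < dg A ↔ ∀ a ∈ A, j < a := by
  constructor
  · intro h
    by_contra hcon
    push Not at hcon
    obtain ⟨a, ha, haj⟩ := hcon
    have hsub : (univ.filter (fun i : Fin q => ∀ a ∈ A, i < a)) ⊆ Finset.Iio a := by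
      intro i hi
      rw [mem_filter] at hi
      exact Finset.mem_Iio.2 (hi.2 a ha)
    have := card_le_card hsub
    rw [Fin.card_Iio] at this
    have haj' : (a : ℕ) ≤ j := haj
    unfold dg at h
    omega
  · intro h
    have hsub : Finset.Iic j ⊆ (univ.filter (fun i : Fin q => ∀ a ∈ A, i < a)) := by
      intro i hi
      rw [mem_filter]
      exact ⟨mem_univ _, fun a ha => lt_of_le_of_lt (Finset.mem_Iic.1 hi) (h a ha)⟩
    have := card_le_card hsub
    rw [Fin.card_Iic] at this
    unfold dg
    omega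

theorem dg_le {q : ℕ} (A : Finset (Fin q)) : dg A ≤ q := by
  unfold dg
  refine (card_le_univ _).trans (by simp)

theorem dg_empty {q : ℕ} : dg (∅ : Finset (Fin q)) = q := by
  simp [dg]

/-- the vertices: `s` for each vertex of the binomial tree, `k - 2 s` further ones for the root, and
`r` isolated ones -/
abbrev Vt (q s k r : ℕ) : Type := (Finset (Fin q) × Fin s) ⊕ (Fin (k - 2 * s) ⊕ Fin r)

/-- the vertex of the tree -/
def bg {q s k r : ℕ} : Vt q s k r → Option (Finset (Fin q))
  | .inl p => some p.1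
  | .inr (.inl _) => some ∅
  | .inr (.inr _) => none

/-- the index in the clique -/
def ix {q s k r : ℕ} : Vt q s k r → ℕ
  | .inl p => p.2
  | .inr (.inl e) => s + e
  | .inr (.inr e) => e

theorem bg_ix_inj {q s k r : ℕ} {x y : Vt q s k r} (hb : bg x = bg y) (hi : ix x = ix y) :
    x = y := by
  rcases x with ⟨A, i⟩ | e | e <;> rcases y with ⟨B, j⟩ | f | f <;>
    simp only [bg, ix, Option.some.injEq, reduceCtorEq] at hb hi
  · subst hb; have : i = j := Fin.ext hi; subst this; rfl
  · omega
  · omega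
  · have : e = f := Fin.ext (by omega)
    subst this; rfl
  · have : e = f := Fin.ext hi
    subst this; rfl

theorem ix_lt {q s k r : ℕ} {x : Vt q s k r} {A : Finset (Fin q)} (hb : bg x = some A)
    (hA : A ≠ ∅) : ix x < s := by
  rcases x with ⟨B, i⟩ | e | e
  · exact i.2
  · simp only [bg, Option.some.injEq] at hb
    exact absurd hb.symm hA
  · simp [bg] at hb

theorem ix_lt' {q s k r : ℕ} {x : Vt q s k r} {A : Finset (Fin q)} (hb : bg x = some A)
    (hs : 2 * s ≤ k) : ix x < k - s := by
  rcases x with ⟨B, i⟩ | e | e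
  · have := i.2
    simp only [ix]
    omega
  · have := e.2
    simp only [ix]
    omega
  · simp [bg] at hb

/-- the graph -/
def Gr (q s k r : ℕ) : SimpleGraph (Vt q s k r) where
  Adj x y := x ≠ y ∧ ∃ A B, bg x = some A ∧ bg y = some B ∧ (A = B ∨ Ch A B ∨ Ch B A)
  symm := ⟨fun x y => by
    rintro ⟨hne, A, B, hA, hB, h⟩
    refine ⟨hne.symm, B, A, hB, hA, ?_⟩
    rcases h with h | h | h
    · exact Or.inl h.symm
    · exact Or.inr (Or.inr h)
    · exact Or.inr (Or.inl h)⟩
  loopless := ⟨fun x h => h.1 rfl⟩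

theorem chordal_Gr (q s k r : ℕ) (hs : 2 * s ≤ k) : IsChordal (Gr q s k r) := by
  classical
  -- the rank: first by the depth in the tree, then arbitrarily
  let e := Fintype.equivFin (Vt q s k r)
  let M := Fintype.card (Vt q s k r)
  let dep : Vt q s k r → ℕ := fun x => match bg x with
    | some A => A.card
    | none => 0
  have hdep : ∀ {x A}, bg x = some A → dep x = A.card := by
    intro x A h
    simp only [dep, h]
  refine chordal_of_rank _ (fun x => dep x * M + e x) ?_ ?_
  · intro x y hxy
    have hx := (e x).2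
    have hy := (e y).2
    have h1 : dep x = dep y := by
      by_contra hne
      rcases Nat.lt_or_gt_of_ne hne with h | h
      · have : dep x * M + M ≤ dep y * M := by
          calc dep x * M + M = (dep x + 1) * M := by ring
            _ ≤ dep y * M := Nat.mul_le_mul_right _ h
        simp only at hxy
        omega
      · have : dep y * M + M ≤ dep x * M := by
          calc dep y * M + M = (dep y + 1) * M := by ring
            _ ≤ dep x * M := Nat.mul_le_mul_right _ h
        simp only at hxy
        omega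
    simp only [h1] at hxy
    exact e.injective (Fin.ext (by omega))
  · rintro v x y ⟨hvx, A, B, hA, hB, hAB⟩ ⟨hvy, A', C, hA', hC, hAC⟩ hrx hry hne
    rw [hA] at hA'
    obtain rfl := Option.some.inj hA'
    have key : ∀ (z : Vt q s k r) (D : Finset (Fin q)), bg z = some D →
        dep z * M + e z < dep v * M + e v → ¬ Ch A D := by
      intro z D hD hlt hCh
      have h1 := hCh.card
      rw [hdep hD, hdep hA, h1] at hlt
      have h2 := (e v).2
      have : (A.card + 1) * M = A.card * M + M := by ring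
      omega
    have h1 : A = B ∨ Ch B A := by
      rcases hAB with h | h | h
      · exact Or.inl h
      · exact absurd h (key x B hB hrx)
      · exact Or.inr h
    have h2 : A = C ∨ Ch C A := by
      rcases hAC with h | h | h
      · exact Or.inl h
      · exact absurd h (key y C hC hry)
      · exact Or.inr h
    refine ⟨hne, B, C, hB, hC, ?_⟩
    rcases h1 with rfl | h1 <;> rcases h2 with rfl | h2
    · exact Or.inl rfl
    · exact Or.inr (Or.inr h2)
    · exact Or.inr (Or.inl h1)
    · exact Or.inl (h1.unique h2)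

theorem clique_card_le (q s k r : ℕ) (hs : 2 * s ≤ k) (hk : 1 ≤ k)
    (t : Finset (Vt q s k r)) (ht : (Gr q s k r).IsClique t) : t.card ≤ k := by
  classical
  by_cases hc : t.card ≤ 1
  · omega
  push Not at hc
  have hsome : ∀ x ∈ t, ∃ A, bg x = some A := by
    intro x hx
    obtain ⟨y, hy, hyx⟩ := exists_mem_ne hc x
    obtain ⟨-, A, B, hA, -, -⟩ := ht (mem_coe.2 hx) (mem_coe.2 hy) hyx.symm
    exact ⟨A, hA⟩
  choose! b hb using hsome
  obtain ⟨v, hv, hmax⟩ := Finset.exists_max_image t (fun x => (b x).card)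
    (card_pos.1 (by omega))
  have hcase : ∀ x ∈ t, b x = b v ∨ Ch (b x) (b v) := by
    intro x hx
    by_cases hxv : x = v
    · exact Or.inl (by rw [hxv])
    obtain ⟨-, A, B, hA, hB, hAB⟩ := ht (mem_coe.2 hx) (mem_coe.2 hv) hxv
    rw [hb x hx] at hA
    rw [hb v hv] at hB
    obtain rfl := Option.some.inj hA
    obtain rfl := Option.some.inj hB
    rcases hAB with h | h | h
    · exact Or.inl h
    · exact Or.inr h
    · have h1 := h.card
      have h2 := hmax x hx
      omega
  have hinj : Set.InjOn (fun x => if b x = b v then ix x else s + ix x) t := by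
    intro x hx y hy hxy
    have hx' := mem_coe.1 hx
    have hy' := mem_coe.1 hy
    have hbx := hb x hx'
    have hby := hb y hy'
    simp only at hxy
    have hne : ∀ z ∈ t, b z ≠ b v → b v ≠ ∅ := by
      intro z hz hzv h0
      rcases hcase z hz with h | h
      · exact hzv h
      · have := h.card
        rw [h0] at this
        simp at this
    split_ifs at hxy with h1 h2 h2
    · exact bg_ix_inj (by rw [hbx, hby, h1, h2]) hxy
    · have h3 := ix_lt hbx (h1 ▸ hne y hy' h2)
      omega
    · have h3 := ix_lt hby (h2 ▸ hne x hx' h1)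
      omega
    · have h3 := ((hcase x hx').resolve_left h1).unique ((hcase y hy').resolve_left h2)
      exact bg_ix_inj (by rw [hbx, hby, h3]) (by omega)
  have hsub : t.image (fun x => if b x = b v then ix x else s + ix x) ⊆ Finset.range k := by
    intro i hi
    obtain ⟨x, hx, rfl⟩ := mem_image.1 hi
    have h3 := ix_lt' (hb x hx) hs
    simp only [mem_range]
    split_ifs <;> omega
  have h4 := card_le_card hsub
  rwa [card_image_of_injOn hinj, card_range] at h4

theorem exists_clique (q s k r : ℕ) (hs : 2 * s ≤ k) (hq : 1 ≤ q) :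
    ∃ t : Finset (Vt q s k r), (Gr q s k r).IsNClique k t := by
  classical
  let j0 : Fin q := ⟨0, hq⟩
  let g : Fin s ⊕ (Fin s ⊕ Fin (k - 2 * s)) → Vt q s k r := fun x => match x with
    | .inl i => .inl ({j0}, i)
    | .inr (.inl i) => .inl (∅, i)
    | .inr (.inr e) => .inr (.inl e)
  have hg : Function.Injective g := by
    intro x y h
    rcases x with i | i | i <;> rcases y with j | j | j <;>
      simp only [g, Sum.inl.injEq, Prod.mk.injEq, Sum.inr.injEq, reduceCtorEq, true_and,
        false_and] at h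
    · rw [h]
    · exact absurd h.1 (by simp)
    · exact absurd h.1.symm (by simp)
    · rw [h]
    · rw [h]
  have hCh : Ch (∅ : Finset (Fin q)) {j0} := ⟨j0, by simp, by simp⟩
  refine ⟨univ.image g, ?_⟩
  rw [SimpleGraph.isNClique_iff]
  constructor
  · intro x hx y hy hne
    rw [mem_coe, mem_image] at hx hy
    obtain ⟨x, -, rfl⟩ := hx
    obtain ⟨y, -, rfl⟩ := hy
    refine ⟨hne, ?_⟩
    rcases x with i | i | i <;> rcases y with j | j | j <;> simp only [g, bg]
    · exact ⟨_, _, rfl, rfl, Or.inl rfl⟩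
    · exact ⟨_, _, rfl, rfl, Or.inr (Or.inr hCh)⟩
    · exact ⟨_, _, rfl, rfl, Or.inr (Or.inr hCh)⟩
    · exact ⟨_, _, rfl, rfl, Or.inr (Or.inl hCh)⟩
    · exact ⟨_, _, rfl, rfl, Or.inl rfl⟩
    · exact ⟨_, _, rfl, rfl, Or.inl rfl⟩
    · exact ⟨_, _, rfl, rfl, Or.inr (Or.inl hCh)⟩
    · exact ⟨_, _, rfl, rfl, Or.inl rfl⟩
    · exact ⟨_, _, rfl, rfl, Or.inl rfl⟩
  · rw [card_image_of_injective _ hg, card_univ]
    simp
    omega

theorem cliqueNum_Gr (q s k r : ℕ) (hs : 2 * s ≤ k) (hk : 1 ≤ k) (hq : 1 ≤ q) :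
    (Gr q s k r).cliqueNum = k := by
  classical
  apply le_antisymm
  · obtain ⟨t, ht⟩ := (Gr q s k r).exists_isNClique_cliqueNum
    have := clique_card_le q s k r hs hk t ht.1
    rw [ht.2] at this
    exact this
  · obtain ⟨t, ht⟩ := exists_clique q s k r hs hq
    have := ht.1.card_le_cliqueNum
    rw [ht.2] at this
    exact this

/-- the levels of the wall -/
def lev {q s k r : ℕ} (x : Vt q s k r) : ℕ :=
  match bg x with
  | some A => s * dg A + ix x + 1
  | none => 1

theorem lev_some {q s k r : ℕ} {x : Vt q s k r} {A : Finset (Fin q)} (h : bg x = some A) :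
    lev x = s * dg A + ix x + 1 := by
  simp only [lev, h]

theorem ff_Gr (q s k r : ℕ) (hs : 2 * s ≤ k) (hs1 : 1 ≤ s) :
    s * (q + 1) ≤ firstFitNumber (Gr q s k r) := by
  classical
  refine le_trans ?_ (le_firstFitNumber (Gr q s k r) lev ?_ ?_ ?_
    (lev (.inl (∅, ⟨s - 1, by omega⟩) : Vt q s k r)) ⟨_, rfl⟩)
  · rw [lev_some (A := ∅) rfl, dg_empty]
    simp only [ix]
    have : s * (q + 1) = s * q + s := by ring
    omega
  · intro x
    unfold lev
    split <;> omega
  · -- proper
    have key : ∀ (x y : Vt q s k r) (A B : Finset (Fin q)), bg x = some A → bg y = some B →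
        Ch A B → lev y < lev x := by
      intro x y A B hA hB hCh
      rw [lev_some hA, lev_some hB]
      obtain ⟨j, hj, rfl⟩ := hCh
      rw [dg_insert A j hj]
      have h1 := (lt_dg_iff A j).2 hj
      have h2 := ix_lt hB (insert_ne_empty _ _)
      have h3 : s * j + s ≤ s * dg A := by
        calc s * j + s = s * (j + 1) := by ring
          _ ≤ s * dg A := Nat.mul_le_mul_left _ h1
      omega
    rintro x y ⟨hne, A, B, hA, hB, h⟩
    rcases h with rfl | h | h
    · rw [lev_some hA, lev_some hB]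
      intro he
      exact hne (bg_ix_inj (by rw [hA, hB]) (by omega))
    · exact (key x y A B hA hB h).ne'
    · exact (key y x B A hB hA h).ne
  · intro x t ht1 ht2
    rcases hb : bg x with _ | A
    · simp only [lev, hb] at ht2
      omega
    rw [lev_some hb] at ht2
    by_cases hlt : s * dg A < t
    · -- same clique
      obtain ⟨i, hi⟩ : ∃ i, t = s * dg A + i + 1 := ⟨t - s * dg A - 1, by omega⟩
      have hi' : i < ix x := by omega
      -- the vertex of index `i` in the clique of `x`
      obtain ⟨y, hy1, hy2⟩ : ∃ y : Vt q s k r, bg y = some A ∧ ix y = i := by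
        by_cases his : i < s
        · exact ⟨.inl (A, ⟨i, his⟩), rfl, rfl⟩
        · have hA : A = ∅ := by
            by_contra hA
            have := ix_lt hb hA
            omega
          have := ix_lt' hb hs
          refine ⟨.inr (.inl ⟨i - s, by omega⟩), by simp only [bg, hA], ?_⟩
          simp only [ix]
          omega
      refine ⟨y, ⟨?_, A, A, hb, hy1, Or.inl rfl⟩, ?_⟩
      · rintro rfl; omega
      · rw [lev_some hy1, hy2, hi]
    · push Not at hlt
      have hdiv := Nat.div_add_mod (t - 1) s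
      have hmod := Nat.mod_lt (t - 1) (show s > 0 by omega)
      have hj : (t - 1) / s < dg A := by
        rw [Nat.div_lt_iff_lt_mul (by omega)]
        have : dg A * s = s * dg A := by ring
        omega
      have hjq : (t - 1) / s < q := lt_of_lt_of_le hj (dg_le A)
      have hj2 := (lt_dg_iff A ⟨(t - 1) / s, hjq⟩).1 hj
      refine ⟨.inl (insert ⟨(t - 1) / s, hjq⟩ A, ⟨(t - 1) % s, hmod⟩),
        ⟨?_, A, _, hb, rfl, Or.inr (Or.inl ⟨_, hj2, rfl⟩)⟩, ?_⟩
      · rintro rfl
        simp only [bg, Option.some.injEq] at hb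
        have : Ch A A := ⟨_, hj2, hb.symm⟩
        have := this.card
        omega
      · rw [lev_some rfl, dg_insert A _ hj2]
        simp only [ix]
        omega

theorem card_Vt (q s k r : ℕ) : Fintype.card (Vt q s k r) = 2 ^ q * s + (k - 2 * s + r) := by
  simp [Fintype.card_sum]

/-- **Theorem.** For all `k ≥ 2` and `n ≥ k²` there is a chordal graph on `n` vertices with clique
number `k` and First-Fit chromatic number at least `k · log₂ n / 6`. -/
theorem result : ∀ k n : ℕ, 2 ≤ k → k ^ 2 ≤ n →
    ∃ (V : Type) (_ : Fintype V) (G : SimpleGraph V), Fintype.card V = n ∧ IsChordal G ∧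
      G.cliqueNum = k ∧ (k : ℝ) * Real.logb 2 n / 6 ≤ firstFitNumber G := by
  intro k n hk hn
  obtain ⟨s, hs⟩ : ∃ s, s = k / 2 := ⟨_, rfl⟩
  have hs1 : 1 ≤ s := by omega
  have hs2 : 2 * s ≤ k := by omega
  have hs3 : k ≤ 3 * s := by omega
  have hkn : 2 * k ≤ n := by nlinarith
  obtain ⟨q, hq⟩ : ∃ q, q = Nat.log 2 ((n - k) / s) := ⟨_, rfl⟩
  have hN : 2 ≤ (n - k) / s := by
    rw [Nat.le_div_iff_mul_le (by omega)]
    omega
  have hq1 : 1 ≤ q := by
    rw [hq]
    exact Nat.log_pos (by norm_num) hN
  have hlow : 2 ^ q ≤ (n - k) / s := by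
    rw [hq]
    exact Nat.pow_log_le_self 2 (by omega)
  have hup : (n - k) / s < 2 ^ (q + 1) := by
    rw [hq]
    exact Nat.lt_pow_succ_log_self (by norm_num) _
  have hlow' : 2 ^ q * s ≤ n - k := (Nat.le_div_iff_mul_le (by omega)).1 hlow
  have hup' : n - k < 2 ^ (q + 1) * s := (Nat.div_lt_iff_lt_mul (by omega)).1 hup
  obtain ⟨r, hr⟩ : ∃ r, r = n - (2 ^ q * s + (k - 2 * s)) := ⟨_, rfl⟩
  refine ⟨Vt q s k r, inferInstance, Gr q s k r, ?_, chordal_Gr q s k r hs2,
    cliqueNum_Gr q s k r hs2 (by omega) hq1, ?_⟩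
  · rw [card_Vt]
    omega
  · have hff := ff_Gr q s k r hs2 hs1
    have hff' : ((s : ℝ) * (q + 1)) ≤ firstFitNumber (Gr q s k r) := by exact_mod_cast hff
    refine le_trans ?_ hff'
    -- `n < 4 ^ (q + 1)`
    have h1 : n * s ^ 2 ≤ (n - k) ^ 2 := by
      obtain ⟨d, hd⟩ : ∃ d, n = k + d := ⟨n - k, by omega⟩
      have hd2 : n - k = d := by omega
      rw [hd2]
      have h2 : k ≤ d := by omega
      have h3 : 4 * s ^ 2 ≤ k ^ 2 := by nlinarith
      have h4 : n ≤ 2 * d := by omega
      have h5 : n * (4 * s ^ 2) ≤ n * n := Nat.mul_le_mul_left _ (h3.trans hn)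
      have h6 : n * n ≤ 2 * d * (2 * d) := Nat.mul_le_mul h4 h4
      nlinarith
    have h2 : (n - k) ^ 2 < (2 ^ (q + 1) * s) ^ 2 := Nat.pow_lt_pow_left hup' (by norm_num)
    have h3 : n * s ^ 2 < 4 ^ (q + 1) * s ^ 2 := by
      calc n * s ^ 2 ≤ (n - k) ^ 2 := h1
        _ < (2 ^ (q + 1) * s) ^ 2 := h2
        _ = 4 ^ (q + 1) * s ^ 2 := by
          rw [mul_pow, ← pow_mul, mul_comm (q + 1) 2, pow_mul]
          norm_num
    have h4 : n < 4 ^ (q + 1) := lt_of_mul_lt_mul_right h3 (Nat.zero_le _)
    have hn0 : 0 < n := by omega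
    have h5 : Real.logb 2 n ≤ 2 * (q + 1) := by
      have h6 : (n : ℝ) ≤ (2 : ℝ) ^ ((2 * (q + 1) : ℕ) : ℝ) := by
        rw [Real.rpow_natCast, pow_mul]
        norm_num
        exact_mod_cast h4.le
      have h7 := Real.logb_le_logb_of_le (b := 2) (by norm_num) (by exact_mod_cast hn0) h6
      rw [Real.logb_rpow (by norm_num) (by norm_num)] at h7
      push_cast at h7
      exact h7
    have hk3 : (k : ℝ) ≤ 3 * s := by exact_mod_cast hs3
    have hk0 : (0 : ℝ) ≤ k := by positivity
    have hq0 : (0 : ℝ) ≤ (q : ℝ) + 1 := by positivity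
    calc (k : ℝ) * Real.logb 2 n / 6 ≤ k * (2 * (q + 1)) / 6 := by gcongr
      _ = k * (q + 1) / 3 := by ring
      _ ≤ 3 * s * (q + 1) / 3 := by gcongr
      _ = s * (q + 1) := by ring

end Pool.Agent.Results.MP_4aa424_co.UniformLowerBound
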